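import Mathlib
import Pool.Agent.Lib.MP_d967a3_an.InnerStmt
import Pool.Agent.Lib.MP_d967a3_an.InnerExample

/-!
# Multidimensional billiard tables with an invariant hypersurface which are not ellipsoids

For every `n ≥ 3` there is a smooth strictly convex billiard table in `ℝⁿ` without any symmetry (in
particular not an ellipsoid and not a body of revolution) whose billiard map has an invariant
hypersurface.

The table is an ellipsoid with pairwise different semi-axes with a small asymmetric dent near an
end point of its longest axis. The invariant hypersurface consists of the oriented lines tangent to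
a confocal two-sheeted hyperboloid around the longest axis. These lines stay between the two sheets
of the hyperboloid, hence they never meet the dent, which lies inside one of the sheets; on the rest
of the boundary the reflection preserves the tangency, since this is true for the full ellipsoid.
-/

open scoped InnerProductSpace ContDiff

namespace Pool.Agent.Results.MP_d967a3_an.InnerBilliardHypersurface

open Pool.Agent.MP_d967a3_an

/-- For every `n ≥ 3` there is a smooth strictly convex billiard table `Ω` in `ℝⁿ`, not an
ellipsoid, and without nontrivial isometries, whose billiard map `T` has an invariant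
hypersurface `S`. -/
theorem result (n : ℕ) (hn : 3 ≤ n) :
    ∃ Ω : Set (EuclideanSpace ℝ (Fin n)), IsSmoothBody Ω ∧ ¬ IsEllipsoid Ω ∧
      (∀ g : EuclideanSpace ℝ (Fin n) ≃ᵃⁱ[ℝ] EuclideanSpace ℝ (Fin n), g '' Ω = Ω →
        ∀ x, g x = x) ∧
      ∃ T : EuclideanSpace ℝ (Fin n) × EuclideanSpace ℝ (Fin n) →
          EuclideanSpace ℝ (Fin n) × EuclideanSpace ℝ (Fin n),
        IsBilliardMap Ω T ∧ ∃ S, IsLineHypersurface Ω S ∧ T '' S = S := by
  have : Nontrivial (Fin n) := Fin.nontrivial_iff_two_le.mpr (by omega)
  have hi : ∀ i : Fin n, i ≠ ⟨0, by omega⟩ → 1 ≤ (i : ℕ) := by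
    intro i hi
    by_contra hcon
    apply hi
    ext
    simp
    omega
  refine inner_example (w := fun i : Fin n => (i : ℝ) + 1)
    (α := fun i => ((i : ℝ) + 1) / (1 - 3 / 4 * ((i : ℝ) + 1))) (μ := 3 / 4)
    (i₀ := ⟨0, by omega⟩) (fun i => by positivity) (fun i h => ?_) ?_ (by norm_num) ?_
    (fun i h => ?_) (fun i => ?_)
  · have : (1 : ℝ) ≤ (i : ℕ) := by exact_mod_cast hi i h
    simp only [Nat.cast_zero]
    linarith
  · intro i j hij
    have : ((i : ℕ) : ℝ) = ((j : ℕ) : ℝ) := by
      simp only at hij
      linarith
    exact Fin.ext (by exact_mod_cast this)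
  · simp only [Nat.cast_zero]
    norm_num
  · have : (1 : ℝ) ≤ (i : ℕ) := by exact_mod_cast hi i h
    linarith
  · have h3 : (1 - 3 / 4 * (((i : ℕ) : ℝ) + 1)) ≠ 0 := by
      intro h
      have h4 : 3 * (((i : ℕ) : ℝ)) = 1 := by linarith
      have h5 : 3 * (i : ℕ) = 1 := by exact_mod_cast h4
      omega
    exact div_mul_cancel₀ _ h3

end Pool.Agent.Results.MP_d967a3_an.InnerBilliardHypersurface
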