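import Mathlib
import Pool.Agent.Lib.MP_d967a3_an.StrStmt
import Pool.Agent.Lib.MP_d967a3_an.StrTable

/-!
# Billiard tables without symmetries whose billiard map has a first integral

For every `n ≥ 4` there is a smooth strictly convex billiard table in `ℝⁿ`, not an ellipsoid and
without any affine symmetry, whose billiard map has a smooth first integral `F` on the whole phase
space. All the levels `{F = c}` with `0 < c < c₀` are connected invariant hypersurfaces, and every
boundary point of the table is hit by a line of each of them.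

Write `ℝⁿ = V₁ ⊕ V₂` with `dim V₁ = 2` and `x = x₁ + x₂`. The table is
`{‖x‖² - b₁(x₁) - b₂(x₂) ≤ 1}`, where the bumps `b₁`, `b₂` are small and vanish for `‖x₁‖ ≥ r`,
`‖x₂‖ ≥ r`. Let `G₁ = ‖x₁ ∧ v₁‖²` and `G₂ = ‖x₂ ∧ v₂‖²` for a line through `x` with direction `v`.
If the line is reflected at a point with `‖x₁‖ ≥ r` then `G₁` is preserved; if `‖x₁‖ < r` then `G₁`
is smaller than `r²` before and after the reflection. So `F = η(G₁ - r²) + η(G₂ - r²)` is a first
integral, where `η(t) = exp(-1/t)` for `t > 0` and `η(t) = 0` for `t ≤ 0`.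
-/

open scoped InnerProductSpace ContDiff

namespace Pool.Agent.Results.MP_d967a3_an.InnerBilliardIntegral

open Pool.Agent.MP_d967a3_an

/-- For every `n ≥ 4` there is a smooth strictly convex billiard table `Ω` in `ℝⁿ`, not an ellipsoid
and without affine symmetries, whose billiard map `T` has a smooth first integral `F` such that all
the levels `{F = c}`, `0 < c < c₀`, are connected invariant hypersurfaces whose lines hit every
boundary point of `Ω`. -/
theorem result (n : ℕ) (hn : 4 ≤ n) :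
    ∃ Ω : Set (EuclideanSpace ℝ (Fin n)), IsSmoothBody Ω ∧ ¬ IsEllipsoid Ω ∧
      NoAffineSymmetry Ω ∧
      ∃ T : EuclideanSpace ℝ (Fin n) × EuclideanSpace ℝ (Fin n) →
          EuclideanSpace ℝ (Fin n) × EuclideanSpace ℝ (Fin n),
        IsBilliardMap Ω T ∧
        ∃ F : EuclideanSpace ℝ (Fin n) × EuclideanSpace ℝ (Fin n) → ℝ, IsLineIntegral Ω T F ∧
          ∃ c₀ : ℝ, 0 < c₀ ∧ ∀ c : ℝ, 0 < c → c < c₀ →
            IsInvariantSeeing Ω T (phaseSpace Ω ∩ {ℓ | F ℓ = c}) := by
  obtain ⟨Ω, hΩ, hE, hA, T, hT, F, hF, h1, c₀, hc₀, h2⟩ := inner_strong hn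
  refine ⟨Ω, hΩ, hE, hA, T, hT, F, ⟨hF, h1⟩, c₀, hc₀, fun c hc hc' => ?_⟩
  obtain ⟨a1, a2, a3, a4⟩ := h2 c hc hc'
  exact ⟨a1, a2, a3, a4⟩

end Pool.Agent.Results.MP_d967a3_an.InnerBilliardIntegral
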