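import Mathlib
import Pool.Agent.Lib.MP_d967a3_an.StrStmt
import Pool.Agent.Lib.MP_d967a3_an.StrOuter

/-!
# Outer billiards with compact invariant hypersurfaces around a body which is not an ellipsoid

For every `m ≥ 2` there is a smooth strictly convex body `K` in `ℝ²ᵐ`, not an ellipsoid and without
any affine symmetry, whose outer billiard map has a smooth first integral `F` on the whole
complement of `K`. Outside `K` the function `F` is homogeneous of degree two and comparable to the
square of the norm; its levels `{F = c}`, `c ≥ 2`, are compact connected invariant hypersurfaces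
around `K`, which fill the outside of `{F < 2} ⊇ K` (so all orbits are bounded), and every boundary
point of `K` is the tangent point of some point of each of them.

Write `ℝ²ᵐ = V₁ ⊕ V₂` with a complex line `V₁`, and `x = x₁ + x₂`. The body is
`K = {‖x‖² - b₁(x₁) - b₂(x₂) ≤ 1}`, where the bumps `b₁`, `b₂` are small and vanish for
`‖x₁‖ ≥ r`, `‖x₂‖ ≥ r`. If the tangent point `y` has `‖y₁‖ ≥ r` then `‖x₁‖` is preserved; if
`‖y₁‖ < r` then `‖x₂‖` is preserved, and `2 ‖x₁‖² ≤ ‖x₂‖²` both before and after the reflection.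
So the smoothed maximum `F` of `‖x₁‖²` and `‖x₂‖²` is a first integral.
-/

open scoped InnerProductSpace ContDiff

namespace Pool.Agent.Results.MP_d967a3_an.OuterBilliardIntegral

open Pool.Agent.MP_d967a3_an

/-- For every `m ≥ 2` there is a smooth strictly convex body `K` in `ℝ²ᵐ`, not an ellipsoid and
without affine symmetries, whose outer billiard map `T` has a smooth first integral `F` such that
all the levels `{F = c}`, `c ≥ 2`, are compact connected invariant hypersurfaces around `K`. -/
theorem result (m : ℕ) (hm : 2 ≤ m) :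
    ∃ K : Set (EuclideanSpace ℝ (Fin m ⊕ Fin m)), IsSmoothBody K ∧ ¬ IsEllipsoid K ∧
      NoAffineSymmetry K ∧
      ∃ T : EuclideanSpace ℝ (Fin m ⊕ Fin m) → EuclideanSpace ℝ (Fin m ⊕ Fin m),
        IsOuterBilliardMap K T ∧
        ∃ F : EuclideanSpace ℝ (Fin m ⊕ Fin m) → ℝ, IsOuterIntegral K T F ∧
          ∀ c : ℝ, 2 ≤ c → IsOuterInvariantSeeing K T {x | F x = c} := by
  obtain ⟨K, hK, hE, hA, T, hT, F, hF, h1, h2, h3⟩ := outer_strong hm
  refine ⟨K, hK, hE, hA, T, hT, F, ⟨hF, fun x hx => (h1 x hx).1, fun x hx => (h1 x hx).2.1,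
    fun x hx => (h1 x hx).2.2.1, fun x hx => (h1 x hx).2.2.2, h2⟩, fun c hc => ?_⟩
  obtain ⟨a1, a2, a3, a4, a5⟩ := h3 c hc
  exact ⟨a1, a2, a3, a4, a5⟩

end Pool.Agent.Results.MP_d967a3_an.OuterBilliardIntegral
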